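import Pool.Agent.Helper10.RC.Basic

/-!
# MP_b55b7c_an: the packets QBasicP and QCutP
-/

open scoped ENNReal NNReal InnerProductSpace ComplexOrder
open Filter Topology

attribute [-instance] CStarMatrix.instAlgebra CStarMatrix.instModule CStarMatrix.instSMul
  CStarMatrix.instMulAction CStarMatrix.instDistribMulAction

noncomputable section
namespace RC
universe u

namespace QB1

variable {A : Type u} [CStarAlgebra A] [PartialOrder A] [StarOrderedRing A]
variable {ι : Type} [Fintype ι] [DecidableEq ι]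

/-- The `i`-th unit column. -/
def col (A : Type u) [CStarAlgebra A] {ι : Type} [DecidableEq ι] (i : ι) :
    CStarMatrix ι Unit A :=
  CStarMatrix.ofMatrix fun a _ => if a = i then 1 else 0

/-- The `i`-th diagonal unit. -/
def E (A : Type u) [CStarAlgebra A] {ι : Type} [Fintype ι] [DecidableEq ι] (i : ι) :
    CStarMatrix ι ι A := col A i * (col A i).conjTranspose

theorem E_nonneg (i : ι) : 0 ≤ E A i := cm_mul_conj_nonneg _

theorem E_apply (i a b : ι) : E A i a b = if a = i ∧ b = i then 1 else 0 := by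
  unfold E
  rw [CStarMatrix.mul_apply]
  simp only [Finset.univ_unique, Finset.sum_singleton]
  show (if a = i then (1 : A) else 0) * star (if b = i then (1 : A) else 0) = _
  by_cases h1 : a = i <;> by_cases h2 : b = i <;> simp [h1, h2]

theorem E_mul_ne {i j : ι} (h : i ≠ j) : E A i * E A j = 0 := by
  ext a b
  rw [CStarMatrix.mul_apply]
  refine Finset.sum_eq_zero fun c _ => ?_
  rw [E_apply, E_apply]
  by_cases h1 : c = i
  · have : c ≠ j := fun h2 => h (h1.symm.trans h2)
    simp [this]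
  · simp [h1]

theorem tau_E (σ : QTrace A) (i : ι) : σ.τ ι (E A i) = 1 := by
  unfold E
  rw [σ.trace, ← σ.one]
  congr 1
  ext a b
  rw [CStarMatrix.mul_apply]
  rw [Finset.sum_eq_single i]
  · show star (if i = i then (1 : A) else 0) * (if i = i then (1 : A) else 0) = _
    simp [CStarMatrix.one_apply]
  · intro c _ hc
    show star (if c = i then (1 : A) else 0) * (if c = i then (1 : A) else 0) = _
    simp [hc]
  · simp

theorem tau_sum (σ : QTrace A) (s : Finset ι) : σ.τ ι (∑ i ∈ s, E A i) = s.card := by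
  induction s using Finset.induction_on with
  | empty => simp [QTrace.zero]
  | insert i s hi ih =>
    rw [Finset.sum_insert hi, Finset.card_insert_of_notMem hi]
    have h1 : E A i * ∑ j ∈ s, E A j = 0 := by
      rw [Finset.mul_sum]
      refine Finset.sum_eq_zero fun j hj => E_mul_ne ?_
      rintro rfl
      exact hi hj
    have h2 : (∑ j ∈ s, E A j) * E A i = 0 := by
      rw [Finset.sum_mul]
      refine Finset.sum_eq_zero fun j hj => E_mul_ne ?_
      rintro rfl
      exact hi hj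
    rw [σ.add ι _ _ (E_nonneg i) (Finset.sum_nonneg fun j _ => E_nonneg j)
      (by rw [h1, h2]), ih, tau_E]
    push_cast
    ring

theorem sum_E : ∑ i : ι, E A i = 1 := by
  ext a b
  have hs : ∀ (f : ι → CStarMatrix ι ι A), (∑ k, f k) a b = ∑ k, f k a b := by
    intro f
    exact Matrix.sum_apply _ _ _ _
  rw [hs, CStarMatrix.one_apply]
  by_cases h : a = b
  · subst h
    rw [Finset.sum_eq_single a]
    · rw [E_apply]; simp
    · intro c _ hc
      rw [E_apply]
      simp [hc.symm]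
    · simp
  · rw [if_neg h]
    refine Finset.sum_eq_zero fun c _ => ?_
    rw [E_apply, if_neg]
    rintro ⟨h1, h2⟩
    exact h (h1.trans h2.symm)

theorem tau_one (σ : QTrace A) : σ.τ ι 1 = Fintype.card ι := by
  rw [← sum_E, tau_sum, Finset.card_univ]

theorem term_nonneg (σ : QTrace A) {a : CStarMatrix ι ι A} (ha : 0 ≤ a) (n : ℕ) :
    0 ≤ σ.τ ι (cfc (fun t : ℝ => min 1 ((n : ℝ) * t)) a) := by
  refine σ.nonneg ι _ (cfc_nonneg fun t ht => ?_)
  have := spectrum_nonneg_of_nonneg ha ht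
  positivity

theorem term_le (σ : QTrace A) {a : CStarMatrix ι ι A} (ha : 0 ≤ a) (n : ℕ) :
    σ.τ ι (cfc (fun t : ℝ => min 1 ((n : ℝ) * t)) a) ≤ Fintype.card ι := by
  rw [← tau_one σ]
  have h1 : (1 : CStarMatrix ι ι A) = cfc (fun _ : ℝ => (1 : ℝ)) a := by
    rw [cfc_const_one ℝ a]
  rw [h1]
  refine σ.cfc_mono (by fun_prop) (by fun_prop) (fun t ht => ?_) (fun t _ => min_le_left _ _)
  have := spectrum_nonneg_of_nonneg ha ht
  positivity

theorem bdd (σ : QTrace A) {a : CStarMatrix ι ι A} (ha : 0 ≤ a) :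
    BddAbove (Set.range fun n : ℕ => σ.τ ι (cfc (fun t : ℝ => min 1 ((n : ℝ) * t)) a)) := by
  refine ⟨Fintype.card ι, ?_⟩
  rintro _ ⟨n, rfl⟩
  exact term_le σ ha n

end QB1

theorem qBasicP : QBasicP.{u} := by
  intro A _ _ _ σ ι _ _ a ha
  refine ⟨QB1.bdd σ ha, ?_, ?_, ?_⟩
  · exact (QB1.term_nonneg σ ha 0).trans (le_ciSup (QB1.bdd σ ha) 0)
  · exact ciSup_le fun n => QB1.term_le σ ha n
  · intro h1
    have h2 : a = cfc (fun t : ℝ => min 1 (((1 : ℕ) : ℝ) * t)) a := by
      conv_lhs => rw [← cfc_id' ℝ a]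
      refine cfc_congr fun t ht => ?_
      have h3 : t ≤ 1 := by
        have h4 : a ≤ algebraMap ℝ (CStarMatrix ι ι A) 1 := by rwa [map_one]
        exact (le_algebraMap_iff_spectrum_le (R := ℝ) (ha.isSelfAdjoint)).1 h4 t ht
      simp only [Nat.cast_one, one_mul]
      exact (min_eq_right h3).symm
    have h5 := le_ciSup (QB1.bdd σ ha) 1
    calc σ.τ ι a = σ.τ ι (cfc (fun t : ℝ => min 1 (((1 : ℕ) : ℝ) * t)) a) := by rw [← h2]
      _ ≤ σ.dim a := h5

theorem qCutP : QCutP.{u} := by
  intro A _ _ _ σ ι _ _ c δ hc hδ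
  have key : σ.dim (cut c δ) ≤ δ⁻¹ * σ.τ ι c := by
    refine ciSup_le fun n => ?_
    have h1 : cfc (fun t : ℝ => min 1 ((n : ℝ) * t)) (cut c δ)
        = cfc (fun t : ℝ => min 1 ((n : ℝ) * max (t - δ) 0)) c := by
      unfold cut
      rw [← cfc_comp' (fun t : ℝ => min 1 ((n : ℝ) * t)) (fun t : ℝ => max (t - δ) 0) c]
    rw [h1]
    have h2 : σ.τ ι c = σ.τ ι (cfc (fun t : ℝ => t) c) := by rw [cfc_id' ℝ c]
    rw [h2, ← σ.cfc_smul (by fun_prop) (fun t ht => spectrum_nonneg_of_nonneg hc ht)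
      (by positivity)]
    refine σ.cfc_mono (by fun_prop) (by fun_prop) (fun t _ => by positivity) (fun t ht => ?_)
    have ht0 := spectrum_nonneg_of_nonneg hc ht
    rcases le_total (t - δ) 0 with h | h
    · rw [max_eq_right h, mul_zero, min_eq_right zero_le_one]
      positivity
    · refine (min_le_left _ _).trans ?_
      rw [inv_mul_eq_div, le_div_iff₀ hδ]
      linarith
  calc δ * σ.dim (cut c δ) ≤ δ * (δ⁻¹ * σ.τ ι c) := mul_le_mul_of_nonneg_left key hδ.le
    _ = σ.τ ι c := by rw [← mul_assoc, mul_inv_cancel₀ hδ.ne', one_mul]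

end RC
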